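import Pool.Agent.helper90.IV.Spec

/-! # MP_26dbae_co, row iv:BL -/

set_option autoImplicit false

namespace Pool.Agent.helper79.IV

open Pool.Agent.IV Pool.Agent.KS Pool.Agent.helper23.TH

open Classical

theorem BL (hPV : PV_stmt) : BL_stmt := by
  intro I _ T P P₁
  obtain ⟨C₀, hC₀⟩ := hPV I T P P₁
  refine ⟨(C₀ + 1) ^ Fintype.card I, ?_⟩
  intro V K _ A lam gh W y F hpr hW hF hag hcard
  have hmain : ∀ n : ℕ, ∀ (B : Finset I) (F' : Finset (I → V)), W ⊆ B → B ≠ Finset.univ → F' ⊆ F →
      F.card ≤ (C₀ + 1) ^ (Fintype.card I - n) * F'.card → (∀ x ∈ F', ∀ x' ∈ F', ∀ i ∈ B, x i = x' i) →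
      (Bᶜ).card = n → ∃ (B : Finset I) (F' : Finset (I → V)), W ⊆ B ∧ B ≠ Finset.univ ∧ F' ⊆ F ∧
        F.card ≤ (C₀ + 1) ^ Fintype.card I * F'.card ∧ (∀ x ∈ F', ∀ x' ∈ F', ∀ i ∈ B, x i = x' i) ∧
        Pk T lam gh B y P F' := by
    intro n
    induction n with
    | zero =>
      intro B F' _ hB _ _ _ hc
      exact absurd (by simpa using hc) hB
    | succ n ih =>
      intro B F' hWB hB hFF hle hagB hc
      by_cases hPk : Pk T lam gh B y P F'
      · refine ⟨B, F', hWB, hB, hFF, hle.trans ?_, hagB, hPk⟩
        exact Nat.mul_le_mul_right _ (Nat.pow_le_pow_right (Nat.succ_pos _) (Nat.sub_le _ _))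
      · have hne : F'.Nonempty := by
          rw [Finset.nonempty_iff_ne_empty]
          rintro rfl
          simp only [Finset.card_empty, mul_zero, Nat.le_zero] at hle
          omega
        obtain ⟨u, hu, v, huv⟩ := hC₀ V K A lam gh W B y F' hpr hWB hB hne
          (fun x hx => hF x (hFF hx)) hagB hPk
        set F'' := F'.filter fun x => x u = v with hF''
        have hn : n + 1 ≤ Fintype.card I := by
          rw [← hc]
          exact Finset.card_le_univ _
        have hle' : F.card ≤ (C₀ + 1) ^ (Fintype.card I - n) * F''.card := by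
          have e : Fintype.card I - n = (Fintype.card I - (n + 1)) + 1 := by omega
          calc F.card ≤ (C₀ + 1) ^ (Fintype.card I - (n + 1)) * F'.card := hle
            _ ≤ (C₀ + 1) ^ (Fintype.card I - (n + 1)) * (C₀ * F''.card) := Nat.mul_le_mul_left _ huv
            _ ≤ (C₀ + 1) ^ (Fintype.card I - (n + 1)) * ((C₀ + 1) * F''.card) :=
                Nat.mul_le_mul_left _ (Nat.mul_le_mul_right _ (Nat.le_succ _))
            _ = (C₀ + 1) ^ (Fintype.card I - n) * F''.card := by rw [e, pow_succ, mul_assoc]
        have hag'' : ∀ x ∈ F'', ∀ x' ∈ F'', ∀ i ∈ insert u B, x i = x' i := by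
          intro x hx x' hx' i hi
          rw [hF'', Finset.mem_filter] at hx hx'
          rcases Finset.mem_insert.1 hi with rfl | hi
          · rw [hx.2, hx'.2]
          · exact hagB x hx.1 x' hx'.1 i hi
        by_cases hun : insert u B = Finset.univ
        · exfalso
          have h1 : F''.card ≤ 1 := by
            rw [Finset.card_le_one]
            intro x hx x' hx'
            funext i
            exact hag'' x hx x' hx' i (by rw [hun]; exact Finset.mem_univ i)
          have h2 : F.card ≤ (C₀ + 1) ^ Fintype.card I := by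
            calc F.card ≤ (C₀ + 1) ^ (Fintype.card I - n) * F''.card := hle'
              _ ≤ (C₀ + 1) ^ (Fintype.card I - n) * 1 := Nat.mul_le_mul_left _ h1
              _ = (C₀ + 1) ^ (Fintype.card I - n) := mul_one _
              _ ≤ (C₀ + 1) ^ Fintype.card I :=
                  Nat.pow_le_pow_right (Nat.succ_pos _) (Nat.sub_le _ _)
          omega
        · refine ih (insert u B) F'' (hWB.trans (Finset.subset_insert _ _)) hun
            ((Finset.filter_subset _ _).trans hFF) hle' hag'' ?_
          have h3 := Finset.card_insert_of_notMem hu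
          have h4 : (insert u B)ᶜ.card + (insert u B).card = Fintype.card I := by
            rw [Finset.card_compl]
            exact Nat.sub_add_cancel (Finset.card_le_univ _)
          have h5 : (Bᶜ).card + B.card = Fintype.card I := by
            rw [Finset.card_compl]
            exact Nat.sub_add_cancel (Finset.card_le_univ _)
          omega
  have hcI : (Wᶜ).card ≤ Fintype.card I := Finset.card_le_univ _
  refine hmain (Wᶜ).card W F (Finset.Subset.refl _) hW (Finset.Subset.refl _) ?_ hag rfl
  calc F.card = 1 * F.card := (one_mul _).symm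
    _ ≤ (C₀ + 1) ^ (Fintype.card I - (Wᶜ).card) * F.card :=
        Nat.mul_le_mul_right _ (Nat.one_le_pow _ _ (Nat.succ_pos _))

end Pool.Agent.helper79.IV
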